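import Pool.Agent.Helper37.MaderNeg.Core

set_option autoImplicit false
set_option linter.unusedSectionVars false

/-!
# Every path on `m` vertices is blocked
-/

namespace Pool.Agent.Helper37.MaderNeg

open Pool.Agent.Helper37.Mader Finset

variable {V : Type} [Fintype V] [DecidableEq V]

/-- the separations of order `k`: for every class outside `a, c, a', c'` -/
def sepk (p : Cl) : Finset Cl × Finset Cl × Finset Cl :=
  let j := p.1
  let i := !p.1
  match p.2 with
  | 2 => ({(j, 0), (j, 3)}, {(j, 2), (j, 5)}ᶜ \ {(j, 0), (j, 3)}, {(j, 2), (j, 5)})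
  | 5 => ({(j, 0), (j, 3)}, {(j, 2), (j, 5)}ᶜ \ {(j, 0), (j, 3)}, {(j, 2), (j, 5)})
  | 4 => ({(j, 0), (j, 1), (j, 2), (j, 3)}, {(j, 4), (j, 5)}ᶜ \ {(j, 0), (j, 1), (j, 2), (j, 3)},
      {(j, 4), (j, 5)})
  | 7 => ({(j, 7), (j, 5)}ᶜ \ {(j, 9), (j, 8)}, {(j, 9), (j, 8)}, {(j, 7), (j, 5)})
  | 0 => (univ.filter (fun q => q.1 = i), univ.filter (fun q => q.1 = j ∧ q.2 ≠ 0), {(j, 0)})
  | 9 => (univ.filter (fun q => q.1 = j ∧ q.2 ≠ 9), univ.filter (fun q => q.1 = i), {(j, 9)})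
  | _ => (∅, ∅, ∅)

/-- the separations of order `k + m - 1`: for the classes `a, c, a', c'` -/
def sepm (p : Cl) : Finset Cl × Finset Cl × Finset Cl :=
  let j := p.1
  match p.2 with
  | 1 => ({(j, 0), (j, 2), (j, 3)}, {(j, 1), (j, 5)}ᶜ \ {(j, 0), (j, 2), (j, 3)}, {(j, 1), (j, 5)})
  | 3 => ({(j, 1), (j, 2)}, {(j, 3), (j, 4)}ᶜ \ {(j, 1), (j, 2)}, {(j, 3), (j, 4)})
  | 6 => ({(j, 6), (j, 5)}ᶜ \ {(j, 9), (j, 7), (j, 8)}, {(j, 9), (j, 7), (j, 8)}, {(j, 6), (j, 5)})
  | 8 => ({(j, 8), (j, 4)}ᶜ \ {(j, 6), (j, 7)}, {(j, 6), (j, 7)}, {(j, 8), (j, 4)})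
  | _ => (∅, ∅, ∅)

/-- the classes `a, c, a', c'` -/
def free (q : Fin 10) : Bool := decide (q = 1 ∨ q = 3 ∨ q = 6 ∨ q = 8)

lemma sepk_sep : ∀ p : Cl, CSep (sepk p).1 (sepk p).2.1 := by decide

lemma sepm_sep : ∀ p : Cl, CSep (sepm p).1 (sepm p).2.1 := by decide

lemma sepk_cover : ∀ p : Cl, free p.2 = false →
    (∀ q, q ∈ (sepk p).1 ∨ q ∈ (sepk p).2.1 ∨ q ∈ (sepk p).2.2) ∧ p ∈ (sepk p).2.2 ∧
    (∃ q ∈ (sepk p).1, free q.2 = true) ∧ (∃ q ∈ (sepk p).2.1, free q.2 = true) := by decide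

lemma sepk_disj : ∀ p : Cl, Disjoint (sepk p).1 (sepk p).2.2 ∧
    Disjoint (sepk p).2.1 (sepk p).2.2 := by decide

lemma sepm_cover : ∀ p : Cl, free p.2 = true →
    (∀ q, q ∈ (sepm p).1 ∨ q ∈ (sepm p).2.1 ∨ q ∈ (sepm p).2.2) ∧ p ∈ (sepm p).2.2 ∧
    p ∉ (sepm p).1 ∧ p ∉ (sepm p).2.1 ∧
    (∃ q, q ∈ (sepm p).1) ∧ (∃ q, q ∈ (sepm p).2.1) := by decide

lemma free_adj : ∀ p q : Cl, free p.2 = true → free q.2 = true → p ≠ q → cadj p q = false := by
  decide

lemma sepk_sum {k m e : ℕ} (hk : e ≤ k) : ∀ p : Cl, free p.2 = false →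
    ∑ q ∈ (sepk p).2.2, sz k m e q.2 = k := by
  rintro ⟨j, i⟩ hf
  fin_cases i
  · simp [sepk, sz]
  · exact absurd hf (by simp [free])
  · rw [show (sepk (j, ⟨2, by norm_num⟩)).2.2 = {(j, 2), (j, 5)} from rfl,
      Finset.sum_pair (by simp)]
    show (k - e) + e = k
    omega
  · exact absurd hf (by simp [free])
  · rw [show (sepk (j, ⟨4, by norm_num⟩)).2.2 = {(j, 4), (j, 5)} from rfl,
      Finset.sum_pair (by simp)]
    show (k - e) + e = k
    omega
  · rw [show (sepk (j, ⟨5, by norm_num⟩)).2.2 = {(j, 2), (j, 5)} from rfl,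
      Finset.sum_pair (by simp)]
    show (k - e) + e = k
    omega
  · exact absurd hf (by simp [free])
  · rw [show (sepk (j, ⟨7, by norm_num⟩)).2.2 = {(j, 7), (j, 5)} from rfl,
      Finset.sum_pair (by simp)]
    show (k - e) + e = k
    omega
  · exact absurd hf (by simp [free])
  · rw [show (sepk (j, ⟨9, by norm_num⟩)).2.2 = {(j, 9)} from rfl, Finset.sum_singleton]
    rfl

lemma sepm_sum {k m e : ℕ} (hk : e + 1 ≤ k) (hm : 1 ≤ m) : ∀ p : Cl, free p.2 = true →
    ∑ q ∈ (sepm p).2.2, sz k m e q.2 = k + m - 1 := by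
  rintro ⟨j, i⟩ hf
  fin_cases i
  · exact absurd hf (by simp [free])
  · rw [show (sepm (j, ⟨1, by norm_num⟩)).2.2 = {(j, 1), (j, 5)} from rfl,
      Finset.sum_pair (by simp)]
    show (k + m - 1 - e) + e = k + m - 1
    omega
  · exact absurd hf (by simp [free])
  · rw [show (sepm (j, ⟨3, by norm_num⟩)).2.2 = {(j, 3), (j, 4)} from rfl,
      Finset.sum_pair (by simp)]
    show (m - 1 + e) + (k - e) = k + m - 1
    omega
  · exact absurd hf (by simp [free])
  · exact absurd hf (by simp [free])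
  · rw [show (sepm (j, ⟨6, by norm_num⟩)).2.2 = {(j, 6), (j, 5)} from rfl,
      Finset.sum_pair (by simp)]
    show (k + m - 1 - e) + e = k + m - 1
    omega
  · exact absurd hf (by simp [free])
  · rw [show (sepm (j, ⟨8, by norm_num⟩)).2.2 = {(j, 8), (j, 4)} from rfl,
      Finset.sum_pair (by simp)]
    show (m - 1 + e) + (k - e) = k + m - 1
    omega
  · exact absurd hf (by simp [free])

lemma sz_free {k m e : ℕ} (he : 1 ≤ e) (hk : e + 1 ≤ k) : ∀ q : Fin 10, free q = true → m ≤ sz k m e q := by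
  intro q hf
  fin_cases q
  · exact absurd hf (by simp [free])
  · show m ≤ k + m - 1 - e
    omega
  · exact absurd hf (by simp [free])
  · show m ≤ m - 1 + e
    omega
  · exact absurd hf (by simp [free])
  · exact absurd hf (by simp [free])
  · show m ≤ k + m - 1 - e
    omega
  · exact absurd hf (by simp [free])
  · show m ≤ m - 1 + e
    omega
  · exact absurd hf (by simp [free])

lemma sz_pos {k m e : ℕ} (he : 1 ≤ e) (hk : e + 1 ≤ k) (hm : 1 ≤ m) : ∀ q : Fin 10, 0 < sz k m e q := by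
  intro q
  fin_cases q
  · show 0 < k
    omega
  · show 0 < k + m - 1 - e
    omega
  · show 0 < k - e
    omega
  · show 0 < m - 1 + e
    omega
  · show 0 < k - e
    omega
  · show 0 < e
    omega
  · show 0 < k + m - 1 - e
    omega
  · show 0 < k - e
    omega
  · show 0 < m - 1 + e
    omega
  · show 0 < k
    omega

theorem blocked {k m e : ℕ} (he : 1 ≤ e) (hk : e + 1 ≤ k) (hm : 1 ≤ m) {cl : V → Cl}
    (hcl : ∀ p, (univ.filter (fun v => cl v = p)).card = sz k m e p.2) {P : Fin m → V}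
    (hP : Function.Injective P) (hadj : ∀ i j : Fin m, i.val + 1 = j.val → adj cl (P i) (P j)) :
    ∃ a b, a ∉ Set.range P ∧ b ∉ Set.range P ∧ a ≠ b ∧
      ¬ PathsIn (adj cl) (Set.range P)ᶜ k a b := by
  classical
  by_cases hf : ∃ i, free (cl (P i)).2 = false
  · obtain ⟨i, hi⟩ := hf
    obtain ⟨h1, h2, ⟨q, hq, hq'⟩, ⟨r, hr, hr'⟩⟩ := sepk_cover (cl (P i)) hi
    obtain ⟨d1, d2⟩ := sepk_disj (cl (P i))
    have hlt : ∀ Z : Finset Cl, cl (P i) ∉ Z →
        (univ.filter (fun l => cl (P l) ∈ Z)).card < m := by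
      intro Z hZ
      have h3 : univ.filter (fun l => cl (P l) ∈ Z) ⊆ univ.erase i := by
        intro l hl
        rw [Finset.mem_erase]
        refine ⟨?_, Finset.mem_univ _⟩
        rintro rfl
        exact hZ (Finset.mem_filter.mp hl).2
      have h4 := Finset.card_le_card h3
      rw [Finset.card_erase_of_mem (Finset.mem_univ _), Finset.card_univ, Fintype.card_fin] at h4
      omega
    refine no_conn hcl (sepk_sep (cl (P i))) h1 hP ?_ ?_ ?_
    · refine lt_of_lt_of_le (hlt _ (Finset.disjoint_right.mp d1 h2)) ?_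
      exact (sz_free he hk q.2 hq').trans
        (Finset.single_le_sum (f := fun p : Cl => sz k m e p.2) (fun _ _ => Nat.zero_le _) hq)
    · refine lt_of_lt_of_le (hlt _ (Finset.disjoint_right.mp d2 h2)) ?_
      exact (sz_free he hk r.2 hr').trans
        (Finset.single_le_sum (f := fun p : Cl => sz k m e p.2) (fun _ _ => Nat.zero_le _) hr)
    · rw [sepk_sum (by omega) _ hi]
      have h5 : 0 < (univ.filter (fun l => cl (P l) ∈ (sepk (cl (P i))).2.2)).card :=
        Finset.card_pos.mpr ⟨i, Finset.mem_filter.mpr ⟨Finset.mem_univ _, h2⟩⟩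
      omega
  · push Not at hf
    have hf' : ∀ i, free (cl (P i)).2 = true := by
      intro i
      exact Bool.eq_true_of_not_eq_false (hf i)
    have hall : ∀ n (hn : n < m), cl (P ⟨n, hn⟩) = cl (P ⟨0, by omega⟩) := by
      intro n
      induction n with
      | zero => intro _; rfl
      | succ n ih =>
        intro hn
        rw [← ih (by omega)]
        have h1 := hadj ⟨n, by omega⟩ ⟨n + 1, hn⟩ rfl
        rcases h1.2 with h2 | h2
        · exact h2.symm
        · by_contra hne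
          rw [free_adj _ _ (hf' _) (hf' _) (Ne.symm hne)] at h2
          exact Bool.false_ne_true h2
    have hall' : ∀ i, cl (P i) = cl (P ⟨0, by omega⟩) := fun i => hall i.1 i.2
    obtain ⟨h1, h2, h3, h4, ⟨q, hq⟩, ⟨r, hr⟩⟩ := sepm_cover (cl (P ⟨0, by omega⟩)) (hf' _)
    refine no_conn hcl (sepm_sep (cl (P ⟨0, by omega⟩))) h1 hP ?_ ?_ ?_
    · rw [Finset.filter_false_of_mem (fun i _ => by rw [hall' i]; exact h3), Finset.card_empty]
      exact lt_of_lt_of_le (sz_pos he hk hm q.2)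
        (Finset.single_le_sum (f := fun p : Cl => sz k m e p.2) (fun _ _ => Nat.zero_le _) hq)
    · rw [Finset.filter_false_of_mem (fun i _ => by rw [hall' i]; exact h4), Finset.card_empty]
      exact lt_of_lt_of_le (sz_pos he hk hm r.2)
        (Finset.single_le_sum (f := fun p : Cl => sz k m e p.2) (fun _ _ => Nat.zero_le _) hr)
    · rw [Finset.filter_true_of_mem (fun i _ => by rw [hall' i]; exact h2), Finset.card_univ,
        Fintype.card_fin, sepm_sum hk hm _ (hf' _)]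
      omega

end Pool.Agent.Helper37.MaderNeg
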