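import Pool.Agent.Helper37.MaderNeg.Core

set_option autoImplicit false
set_option linter.unusedSectionVars false

/-!
# The digraph is `k`-connected
-/

namespace Pool.Agent.Helper37.MaderNeg

open Pool.Agent.Helper37.Mader Finset

variable {V : Type} [Fintype V] [DecidableEq V]

/-- strong connectivity of the class digraph after the deletion of light classes -/
lemma spread (α F : Cl → Prop)
    (step : ∀ p q, α p → cadj p q = true → F q → α q)
    (hbig : ∀ j, F (j, 0) ∧ F (j, 1) ∧ F (j, 6) ∧ F (j, 9))
    (hone : ∀ p q : Cl, (p.2 = 2 ∨ p.2 = 4 ∨ p.2 = 7) → ¬ F p → q ≠ p → F q) (p₀ : Cl) (h₀ : α p₀) :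
    ∀ q, F q → α q := by
  have ret : ∀ j τ, α (j, τ) → α (j, 0) := by
    intro j τ h
    have hb := hbig j
    fin_cases τ
    · exact h
    · -- a
      by_cases h4 : F (j, 4)
      · exact step _ _ (step _ (j, 4) h (by cases j <;> decide) h4) (by cases j <;> decide) hb.1
      · have h2 : F (j, 2) := hone (j, 4) (j, 2) (by simp) h4 (by simp)
        have h3 : F (j, 3) := hone (j, 4) (j, 3) (by simp) h4 (by simp)
        exact step _ _ (step _ (j, 3) (step _ (j, 2) h (by cases j <;> decide) h2)
          (by cases j <;> decide) h3) (by cases j <;> decide) hb.1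
    · -- b
      by_cases h4 : F (j, 4)
      · exact step _ _ (step _ (j, 4) (step _ (j, 1) h (by cases j <;> decide) hb.2.1)
          (by cases j <;> decide) h4) (by cases j <;> decide) hb.1
      · have h3 : F (j, 3) := hone (j, 4) (j, 3) (by simp) h4 (by simp)
        exact step _ _ (step _ (j, 3) h (by cases j <;> decide) h3) (by cases j <;> decide) hb.1
    · exact step _ _ h (by cases j <;> decide) hb.1
    · exact step _ _ h (by cases j <;> decide) hb.1
    · exact step _ _ h (by cases j <;> decide) hb.1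
    · exact step _ _ h (by cases j <;> decide) hb.1
    · exact step _ _ h (by cases j <;> decide) hb.1
    · exact step _ _ h (by cases j <;> decide) hb.1
    · exact step _ _ h (by cases j <;> decide) hb.1
  have pass : ∀ j, α (j, 0) → α (!j, 0) ∧ ∀ τ, F (j, τ) → α (j, τ) := by
    intro j h
    have hb := hbig j
    have a5 : F (j, 5) → α (j, 5) := fun h5 => step _ _ h (by cases j <;> decide) h5
    have a3 : F (j, 3) → α (j, 3) := fun h3 => step _ _ h (by cases j <;> decide) h3
    have a2 : F (j, 2) → α (j, 2) := fun h2 => step _ _ h (by cases j <;> decide) h2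
    have a1 : α (j, 1) := by
      by_cases h2 : F (j, 2)
      · exact step _ _ (a2 h2) (by cases j <;> decide) hb.2.1
      · exact step _ _ (a5 (hone (j, 2) (j, 5) (by simp) h2 (by simp))) (by cases j <;> decide)
          hb.2.1
    have a4 : F (j, 4) → α (j, 4) := fun h4 => step _ _ a1 (by cases j <;> decide) h4
    have a6 : α (j, 6) := by
      by_cases h4 : F (j, 4)
      · exact step _ _ (a4 h4) (by cases j <;> decide) hb.2.2.1
      · have h5 : F (j, 5) := hone (j, 4) (j, 5) (by simp) h4 (by simp)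
        have h8 : F (j, 8) := hone (j, 4) (j, 8) (by simp) h4 (by simp)
        have h7 : F (j, 7) := hone (j, 4) (j, 7) (by simp) h4 (by simp)
        exact step _ _ (step _ (j, 7) (step _ (j, 8) (a5 h5) (by cases j <;> decide) h8)
          (by cases j <;> decide) h7) (by cases j <;> decide) hb.2.2.1
    have a7 : F (j, 7) → α (j, 7) := fun h7 => step _ _ a6 (by cases j <;> decide) h7
    have a9 : α (j, 9) := by
      by_cases h7 : F (j, 7)
      · exact step _ _ (a7 h7) (by cases j <;> decide) hb.2.2.2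
      · exact step _ _ (a5 (hone (j, 7) (j, 5) (by simp) h7 (by simp))) (by cases j <;> decide)
          hb.2.2.2
    have a8 : F (j, 8) → α (j, 8) := fun h8 => step _ _ a9 (by cases j <;> decide) h8
    refine ⟨step _ _ a9 (by cases j <;> decide) (hbig (!j)).1, fun τ hτ => ?_⟩
    fin_cases τ
    · exact h
    · exact a1
    · exact a2 hτ
    · exact a3 hτ
    · exact a4 hτ
    · exact a5 hτ
    · exact a6
    · exact a7 hτ
    · exact a8 hτ
    · exact a9
  obtain ⟨j₀, τ₀⟩ := p₀
  have h1 := ret j₀ τ₀ h₀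
  have h2 := (pass j₀ h1).1
  rintro ⟨j, τ⟩ hF
  by_cases hj : j = j₀
  · subst hj
    exact (pass j h1).2 τ hF
  · have hj' : j = !j₀ := by
      cases j <;> cases j₀ <;> simp_all
    subst hj'
    exact (pass _ h2).2 τ hF

theorem sep_large {k m e : ℕ} (he : 1 ≤ e) (hk : 2 * e ≤ k) (hm : e + 1 ≤ m) {cl : V → Cl}
    (hcl : ∀ p, (univ.filter (fun v => cl v = p)).card = sz k m e p.2) {A B : Finset V}
    (hs : Sep (adj cl) A B) (hA : A.Nonempty) (hB : B.Nonempty) :
    k ≤ (univ \ (A ∪ B)).card := by
  by_contra hcon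
  push Not at hcon
  let α : Cl → Prop := fun p => ∃ v ∈ A, cl v = p
  let F : Cl → Prop := fun p => ∃ v ∈ A ∪ B, cl v = p
  have hαβ : ∀ p, α p → ¬ ∃ v ∈ B, cl v = p := by
    rintro p ⟨u, hu, rfl⟩ ⟨v, hv, hv'⟩
    have h1 := hs u hu v hv
    exact h1.2 ⟨h1.1, Or.inl hv'.symm⟩
  have step : ∀ p q, α p → cadj p q = true → F q → α q := by
    rintro p q ⟨u, hu, rfl⟩ hadj ⟨v, hv, rfl⟩
    rcases Finset.mem_union.mp hv with h | h
    · exact ⟨v, h, rfl⟩
    · exact absurd ⟨(hs u hu v h).1, Or.inr hadj⟩ (hs u hu v h).2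
  -- a set of classes which are not free lies in the separator
  have hnf : ∀ Z : Finset Cl, (∀ p ∈ Z, ¬ F p) → ∑ p ∈ Z, sz k m e p.2 < k := by
    intro Z hZ
    rw [← card_part hcl]
    refine lt_of_le_of_lt (Finset.card_le_card ?_) hcon
    intro v hv
    rw [Finset.mem_sdiff]
    exact ⟨Finset.mem_univ _, fun h => hZ _ (mem_part.mp hv) ⟨v, h, rfl⟩⟩
  have hbig1 : ∀ p : Cl, k ≤ sz k m e p.2 → F p := by
    intro p hp
    by_contra hF
    have h1 := hnf {p} (by
      intro q hq
      rw [Finset.mem_singleton] at hq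
      subst hq
      exact hF)
    rw [Finset.sum_singleton] at h1
    omega
  have hpos : ∀ q : Fin 10, e ≤ sz k m e q := by
    intro q
    fin_cases q
    · show e ≤ k
      omega
    · show e ≤ k + m - 1 - e
      omega
    · show e ≤ k - e
      omega
    · show e ≤ m - 1 + e
      omega
    · show e ≤ k - e
      omega
    · show e ≤ e
      omega
    · show e ≤ k + m - 1 - e
      omega
    · show e ≤ k - e
      omega
    · show e ≤ m - 1 + e
      omega
    · show e ≤ k
      omega
  have hone : ∀ p q : Cl, (p.2 = 2 ∨ p.2 = 4 ∨ p.2 = 7) → ¬ F p → q ≠ p → F q := by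
    intro p q hp hF hq
    by_contra hF'
    have h1 := hnf {p, q} (by
      intro r hr
      rw [Finset.mem_insert, Finset.mem_singleton] at hr
      rcases hr with rfl | rfl
      · exact hF
      · exact hF')
    rw [Finset.sum_pair (Ne.symm hq)] at h1
    have h2 : sz k m e p.2 = k - e := by
      rcases hp with h | h | h <;> rw [h] <;> rfl
    have h3 := hpos q.2
    omega
  obtain ⟨a, ha⟩ := hA
  obtain ⟨b, hb⟩ := hB
  have hall := spread α F step
    (fun j => ⟨hbig1 _ (le_refl k), hbig1 _ (show k ≤ k + m - 1 - e by omega),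
      hbig1 _ (show k ≤ k + m - 1 - e by omega), hbig1 _ (le_refl k)⟩) hone (cl a) ⟨a, ha, rfl⟩
  exact hαβ _ (hall (cl b) ⟨b, Finset.mem_union_right _ hb, rfl⟩) ⟨b, hb, rfl⟩

end Pool.Agent.Helper37.MaderNeg
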