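import Pool.Agent.Helper37.Mader.Menger

set_option autoImplicit false
set_option linter.unusedSectionVars false

/-!
# helper90's digraph: classes and arcs

For `e ≥ 1`, `k ≥ 4e`, `m ≥ 2e+1`: a `k`-connected digraph of minimum semidegree `2k+m-2+e` in which
the deletion of every directed path on `m` vertices destroys `k`-connectivity.  Classes of a block:
`0 t, 1 a, 2 b, 3 c, 4 S, 5 x, 6 a', 7 b', 8 c', 9 t'`; there are two blocks.
-/

namespace Pool.Agent.Helper37.MaderNeg

open Pool.Agent.Helper37.Mader Finset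

/-- blocks and classes -/
abbrev Cl : Type := Bool × Fin 10

/-- the sizes of the classes -/
def sz (k m e : ℕ) : Fin 10 → ℕ :=
  ![k, k + m - 1 - e, k - e, m - 1 + e, k - e, e, k + m - 1 - e, k - e, m - 1 + e, k]

/-- out-neighbours of the classes inside a block -/
def outs : Fin 10 → List (Fin 10) := ![[2, 3, 5], [2, 4], [1, 3], [0, 2, 5], [0, 1, 2, 3, 6],
  [0, 1, 2, 3, 8, 9], [0, 2, 4, 5, 7], [0, 1, 2, 3, 4, 5, 6, 8, 9], [0, 2, 4, 5, 7, 9],
  [0, 1, 2, 3, 4, 5, 8]]

/-- arcs between different classes -/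
def cadj (p q : Cl) : Bool :=
  if p.1 = q.1 then decide (q.2 ∈ outs p.2) else decide (p.2 = 9 ∧ q.2 = 0)

variable {V : Type} [Fintype V] [DecidableEq V]

/-- the arcs of the digraph -/
def adj (cl : V → Cl) (u v : V) : Prop := u ≠ v ∧ (cl u = cl v ∨ cadj (cl u) (cl v) = true)

/-- the vertices in a set of classes -/
def part (cl : V → Cl) (Z : Finset Cl) : Finset V := univ.filter (fun v => cl v ∈ Z)

omit [DecidableEq V] in
lemma mem_part {cl : V → Cl} {Z : Finset Cl} {v : V} : v ∈ part cl Z ↔ cl v ∈ Z := by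
  simp [part]

lemma card_part {k m e : ℕ} {cl : V → Cl}
    (hcl : ∀ p, (univ.filter (fun v => cl v = p)).card = sz k m e p.2) (Z : Finset Cl) :
    (part cl Z).card = ∑ p ∈ Z, sz k m e p.2 := by
  have h1 : ∀ v ∈ part cl Z, cl v ∈ Z := fun v hv => mem_part.mp hv
  rw [Finset.card_eq_sum_card_fiberwise h1]
  refine Finset.sum_congr rfl fun p hp => ?_
  rw [← hcl p]
  congr 1
  ext v
  simp only [Finset.mem_filter, mem_part, Finset.mem_univ, true_and]
  constructor
  · exact fun h => h.2
  · intro h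
    exact ⟨by rw [h]; exact hp, h⟩

/-- class level separations -/
def CSep (X Y : Finset Cl) : Prop := ∀ p ∈ X, ∀ q ∈ Y, p ≠ q ∧ cadj p q = false

instance (X Y : Finset Cl) : Decidable (CSep X Y) := by
  unfold CSep
  infer_instance

lemma CSep.sep {cl : V → Cl} {X Y : Finset Cl} (h : CSep X Y) :
    Sep (adj cl) (part cl X) (part cl Y) := by
  intro u hu v hv
  have h1 := h (cl u) (mem_part.mp hu) (cl v) (mem_part.mp hv)
  refine ⟨fun e => h1.1 (by rw [e]), fun hr => ?_⟩
  rcases hr.2 with h2 | h2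
  · exact h1.1 h2
  · rw [h1.2] at h2
    exact Bool.false_ne_true h2

/-- if `P` meets the separator in more than `w(T) - k` vertices, then the paths do not exist -/
lemma no_conn {k m e : ℕ} {cl : V → Cl}
    (hcl : ∀ p, (univ.filter (fun v => cl v = p)).card = sz k m e p.2) {X Y T : Finset Cl}
    (hs : CSep X Y) (hT : ∀ p, p ∈ X ∨ p ∈ Y ∨ p ∈ T) {P : Fin m → V} (hP : Function.Injective P)
    (hX : (univ.filter (fun i => cl (P i) ∈ X)).card < ∑ p ∈ X, sz k m e p.2)
    (hY : (univ.filter (fun i => cl (P i) ∈ Y)).card < ∑ p ∈ Y, sz k m e p.2)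
    (hw : ∑ p ∈ T, sz k m e p.2 < k + (univ.filter (fun i => cl (P i) ∈ T)).card) :
    ∃ a b, a ∉ Set.range P ∧ b ∉ Set.range P ∧ a ≠ b ∧
      ¬ PathsIn (adj cl) (Set.range P)ᶜ k a b := by
  have hmeet : ∀ Z : Finset Cl, (part cl Z ∩ univ.image P).card =
      (univ.filter (fun i => cl (P i) ∈ Z)).card := by
    intro Z
    rw [← Finset.card_image_of_injective _ hP]
    congr 1
    ext v
    simp only [Finset.mem_inter, mem_part, Finset.mem_image, Finset.mem_univ, true_and,
      Finset.mem_filter]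
    constructor
    · rintro ⟨h1, i, rfl⟩
      exact ⟨i, h1, rfl⟩
    · rintro ⟨i, h1, rfl⟩
      exact ⟨h1, i, rfl⟩
  have hex : ∀ Z : Finset Cl, (univ.filter (fun i => cl (P i) ∈ Z)).card < ∑ p ∈ Z, sz k m e p.2 →
      ∃ a, cl a ∈ Z ∧ a ∉ Set.range P := by
    intro Z hZ
    rw [← hmeet, ← card_part hcl] at hZ
    by_contra hcon
    push Not at hcon
    have : part cl Z ⊆ part cl Z ∩ univ.image P := by
      intro a ha
      rw [Finset.mem_inter]
      refine ⟨ha, ?_⟩
      obtain ⟨i, hi⟩ := hcon a (mem_part.mp ha)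
      exact Finset.mem_image.mpr ⟨i, Finset.mem_univ _, hi⟩
    exact absurd (Finset.card_le_card this) (by omega)
  obtain ⟨a, haX, haP⟩ := hex X hX
  obtain ⟨b, hbY, hbP⟩ := hex Y hY
  have hsep := hs.sep (cl := cl)
  have haX' : a ∈ part cl X := mem_part.mpr haX
  have hbY' : b ∈ part cl Y := mem_part.mpr hbY
  refine ⟨a, b, haP, hbP, (hsep a haX' b hbY').1, fun hp => ?_⟩
  have hset : (Set.range P)ᶜ = (((univ.image P)ᶜ : Finset V) : Set V) := by
    ext v
    simp
  rw [hset] at hp
  have h1 := le_of_paths hsep haX' hbY' hp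
  have h2 : (univ.image P)ᶜ \ (part cl X ∪ part cl Y) ⊆ part cl T \ (part cl T ∩ univ.image P) := by
    intro v hv
    rw [Finset.mem_sdiff, Finset.mem_compl, Finset.mem_union, not_or, mem_part, mem_part] at hv
    have h3 : cl v ∈ T := by
      rcases hT (cl v) with h | h | h
      · exact absurd h hv.2.1
      · exact absurd h hv.2.2
      · exact h
    rw [Finset.mem_sdiff, Finset.mem_inter, mem_part]
    exact ⟨h3, fun h => hv.1 h.2⟩
  have h3 := Finset.card_le_card h2
  rw [Finset.card_sdiff_of_subset Finset.inter_subset_left, card_part hcl, hmeet] at h3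
  have h4 : (part cl T ∩ univ.image P).card ≤ (part cl T).card :=
    Finset.card_le_card Finset.inter_subset_left
  rw [card_part hcl, hmeet] at h4
  omega

end Pool.Agent.Helper37.MaderNeg
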