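import Pool.Agent.Helper37.MaderNeg.Conn
import Pool.Agent.Helper37.MaderNeg.Block

set_option autoImplicit false
set_option linter.unusedSectionVars false

/-!
# Degrees, and the final form
-/

namespace Pool.Agent.Helper37.MaderNeg

open Pool.Agent.Helper37.Mader Finset

variable {V : Type} [Fintype V] [DecidableEq V]

/-- some out-neighbours of a class -/
def outset : Fin 10 → Finset (Fin 10) := ![{0, 2, 3, 5}, {1, 2, 4}, {1, 2, 3}, {0, 2, 3, 5},
  {0, 1, 6}, {0, 1, 9}, {0, 2, 4, 6}, {0, 1, 9}, {0, 2, 8, 9}, {0, 1, 9}]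

/-- some in-neighbours of a class -/
def inset : Fin 10 → Finset (Fin 10) := ![{0, 6, 9}, {1, 2, 9}, {0, 1, 2}, {0, 2, 3, 9},
  {1, 4, 9}, {0, 6, 9}, {4, 6, 7}, {6, 7, 8}, {5, 7, 8, 9}, {5, 7, 8, 9}]

lemma out_ok : ∀ (j : Bool) (τ : Fin 10), ∀ q ∈ outset τ, q = τ ∨ cadj (j, τ) (j, q) = true := by
  decide

lemma in_ok : ∀ (j : Bool) (τ : Fin 10), ∀ q ∈ inset τ, q = τ ∨ cadj (j, q) (j, τ) = true := by
  decide

lemma out_sum {k m e : ℕ} (he : 1 ≤ e) (hk : 4 * e ≤ k) (hm : 2 * e + 1 ≤ m) (τ : Fin 10) :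
    2 * k + m - 1 + e ≤ ∑ q ∈ outset τ, sz k m e q := by
  fin_cases τ <;> simp [outset, sz] <;> omega

lemma in_sum {k m e : ℕ} (he : 1 ≤ e) (hk : 4 * e ≤ k) (hm : 2 * e + 1 ≤ m) (τ : Fin 10) :
    2 * k + m - 1 + e ≤ ∑ q ∈ inset τ, sz k m e q := by
  fin_cases τ <;> simp [inset, sz] <;> omega

lemma deg_aux {k m e : ℕ} (hk1 : 1 ≤ k) {cl : V → Cl}
    (hcl : ∀ p, (univ.filter (fun v => cl v = p)).card = sz k m e p.2) (v : V)
    (Z : Finset (Fin 10)) (hZ : 2 * k + m - 1 + e ≤ ∑ q ∈ Z, sz k m e q) (S : Finset V)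
    (hS : ∀ w, w ≠ v → (∃ q ∈ Z, cl w = ((cl v).1, q)) → w ∈ S) : 2 * k + m - 2 + e ≤ S.card := by
  let Z' : Finset Cl := Z.map ⟨fun q => ((cl v).1, q), fun a b h => (Prod.mk.inj h).2⟩
  have h1 : ∑ p ∈ Z', sz k m e p.2 = ∑ q ∈ Z, sz k m e q := by
    rw [Finset.sum_map]
    rfl
  have h2 : (part cl Z').erase v ⊆ S := by
    intro w hw
    rw [Finset.mem_erase, mem_part, Finset.mem_map] at hw
    obtain ⟨hw1, q, hq, hq'⟩ := hw
    exact hS w hw1 ⟨q, hq, hq'.symm⟩
  have h3 := Finset.card_le_card h2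
  have h4 := Finset.pred_card_le_card_erase (s := part cl Z') (a := v)
  rw [card_part hcl, h1] at h4
  omega

lemma out_deg {k m e : ℕ} (he : 1 ≤ e) (hk : 4 * e ≤ k) (hm : 2 * e + 1 ≤ m) {cl : V → Cl}
    (hcl : ∀ p, (univ.filter (fun v => cl v = p)).card = sz k m e p.2) (v : V) :
    2 * k + m - 2 + e ≤ Set.ncard {w | adj cl v w} := by
  classical
  have h : {w | adj cl v w} = ((univ.filter (fun w => adj cl v w) : Finset V) : Set V) := by
    ext w
    simp
  rw [h, Set.ncard_coe_finset]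
  refine deg_aux (by omega) hcl v (outset (cl v).2) (out_sum he hk hm _) _ ?_
  rintro w hw ⟨q, hq, hcw⟩
  rw [Finset.mem_filter]
  refine ⟨Finset.mem_univ _, Ne.symm hw, ?_⟩
  rcases out_ok (cl v).1 (cl v).2 q hq with h1 | h1
  · left
    rw [hcw, h1]
  · right
    rw [hcw]
    exact h1

lemma in_deg {k m e : ℕ} (he : 1 ≤ e) (hk : 4 * e ≤ k) (hm : 2 * e + 1 ≤ m) {cl : V → Cl}
    (hcl : ∀ p, (univ.filter (fun v => cl v = p)).card = sz k m e p.2) (v : V) :
    2 * k + m - 2 + e ≤ Set.ncard {w | adj cl w v} := by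
  classical
  have h : {w | adj cl w v} = ((univ.filter (fun w => adj cl w v) : Finset V) : Set V) := by
    ext w
    simp
  rw [h, Set.ncard_coe_finset]
  refine deg_aux (by omega) hcl v (inset (cl v).2) (in_sum he hk hm _) _ ?_
  rintro w hw ⟨q, hq, hcw⟩
  rw [Finset.mem_filter]
  refine ⟨Finset.mem_univ _, hw, ?_⟩
  rcases in_ok (cl v).1 (cl v).2 q hq with h1 | h1
  · left
    rw [hcw, h1]
  · right
    rw [hcw]
    exact h1

/-- for all `e ≥ 1`, `k ≥ 4e` and `m ≥ 2e+1` there is a `k`-connected digraph of minimum semidegree at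
least `2k+m-2+e` such that no path on `m` vertices can be deleted without destroying `k`-connectivity -/
theorem exists_counterexample (k m e : ℕ) (he : 1 ≤ e) (hk : 4 * e ≤ k) (hm : 2 * e + 1 ≤ m) :
    ∃ (n : ℕ) (r : Fin n → Fin n → Prop), (∀ v, ¬ r v v) ∧ k + 1 ≤ n ∧
      (∀ a b, a ≠ b → PathsIn r Set.univ k a b) ∧
      (∀ v, 2 * k + m - 2 + e ≤ Set.ncard {w | r v w} ∧ 2 * k + m - 2 + e ≤ Set.ncard {w | r w v}) ∧
      ∀ P : Fin m → Fin n, Function.Injective P →
        (∀ i j : Fin m, i.val + 1 = j.val → r (P i) (P j)) →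
        ∃ a b, a ∉ Set.range P ∧ b ∉ Set.range P ∧ a ≠ b ∧ ¬ PathsIn r (Set.range P)ᶜ k a b := by
  classical
  let U : Type := Σ p : Cl, Fin (sz k m e p.2)
  let E : U ≃ Fin (Fintype.card U) := Fintype.equivFin U
  let cl : Fin (Fintype.card U) → Cl := fun v => (E.symm v).1
  have hcl : ∀ p, (univ.filter (fun v => cl v = p)).card = sz k m e p.2 := by
    intro p
    rw [← Fintype.card_subtype]
    have e1 : {v : Fin (Fintype.card U) // cl v = p} ≃ {u : U // u.1 = p} :=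
      E.symm.subtypeEquiv (fun v => Iff.rfl)
    rw [Fintype.card_congr e1, Fintype.card_congr (Equiv.sigmaSubtype p), Fintype.card_fin]
  have hn : k + 1 ≤ Fintype.card U := by
    have h1 : (part cl {(true, 0), (true, 5)}).card = k + e := by
      rw [card_part hcl, Finset.sum_pair (by simp)]
      rfl
    have h2 := Finset.card_le_univ (part cl {(true, 0), (true, 5)})
    rw [h1, Fintype.card_fin] at h2
    omega
  refine ⟨Fintype.card U, adj cl, fun v h => h.1 rfl, hn, ?_, ?_, ?_⟩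
  · intro a b hab
    have h1 := paths_of_lb (r := adj cl) (W := (Finset.univ : Finset (Fin (Fintype.card U))))
      (k := k) hab (Finset.mem_univ a) (Finset.mem_univ b)
      (by rw [Finset.card_univ, Fintype.card_fin]; exact hn)
      (fun A B _ _ hs hA hB => sep_large he (by omega) (by omega) hcl hs hA hB)
    rw [Finset.coe_univ] at h1
    exact h1
  · exact fun v => ⟨out_deg he hk hm hcl v, in_deg he hk hm hcl v⟩
  · intro P hP hadj
    exact blocked he (by omega) (by omega) hcl hP hadj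

end Pool.Agent.Helper37.MaderNeg
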